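import Pool.Agent.Helper884.Golod

/-!
# Finitely generated infinite torsion groups (Golod)
-/

set_option autoImplicit false

namespace Pool.Agent.X196.TorsionGroup

open Matrix

variable {A : Type} [Ring A]

/-- the elementary unit `1 + c E_ij` for `i ≠ j` -/
def el (i j : Fin 2) (hij : i ≠ j) (c : A) : (Matrix (Fin 2) (Fin 2) A)ˣ where
  val := 1 + Matrix.single i j c
  inv := 1 - Matrix.single i j c
  val_inv := by
    have h : Matrix.single i j c * Matrix.single i j c = 0 := by
      rw [Matrix.single_mul_single_of_ne _ _ _ _ hij.symm]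
    noncomm_ring
    rw [h]
    simp
  inv_val := by
    have h : Matrix.single i j c * Matrix.single i j c = 0 := by
      rw [Matrix.single_mul_single_of_ne _ _ _ _ hij.symm]
    noncomm_ring
    rw [h]
    simp

/-- there is a finitely generated infinite torsion group -/
theorem exists_fg_infinite_torsion : ∃ (T : Type) (_ : Group T), Group.FG T ∧ Infinite T ∧
    ∀ g : T, IsOfFinOrder g := by
  have : Fact (Nat.Prime 2) := ⟨Nat.prime_two⟩
  obtain ⟨A, hA, hAlg, a, b, hab, hinf, htor⟩ :=
    Pool.Agent.Helper884.Golod.exists_periodic_GL 2 2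
  let S : Finset (Matrix (Fin 2) (Fin 2) A)ˣ := by
    classical
    exact {el 0 1 (by decide) 1, el 0 1 (by decide) a, el 0 1 (by decide) b, el 1 0 (by decide) 1}
  let H : Subgroup (Matrix (Fin 2) (Fin 2) A)ˣ := Subgroup.closure (S : Set _)
  have hmem : ∀ u ∈ S, u ∈ H := fun u hu => Subgroup.subset_closure hu
  refine ⟨H, inferInstance, (Group.fg_iff_subgroup_fg H).2 ⟨S, rfl⟩, ?_, ?_⟩
  · have h1 : ¬ (H : Set (Matrix (Fin 2) (Fin 2) A)ˣ).Finite := by
      refine Pool.Agent.Helper884.Golod.units_infinite (ZMod 2) H
        (Matrix.scalarAlgHom (Fin 2) (ZMod 2) : A →ₐ[ZMod 2] Matrix (Fin 2) (Fin 2) A) ?_ ?_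
      · intro x y h
        have := congrFun (congrFun h 0) 0
        simpa using this
      · let B := Algebra.adjoin (ZMod 2) (Units.val '' (H : Set (Matrix (Fin 2) (Fin 2) A)ˣ))
        have hB : ∀ u ∈ S, (u.val : Matrix (Fin 2) (Fin 2) A) - 1 ∈ B := fun u hu =>
          B.sub_mem (Algebra.subset_adjoin ⟨u, hmem u hu, rfl⟩) B.one_mem
        have e1 : Matrix.single (0 : Fin 2) (1 : Fin 2) (1 : A) ∈ B := by
          have := hB (el 0 1 (by decide) 1) (by simp [S])
          simpa [el] using this
        have ea : Matrix.single (0 : Fin 2) (1 : Fin 2) a ∈ B := by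
          have := hB (el 0 1 (by decide) a) (by simp [S])
          simpa [el] using this
        have eb : Matrix.single (0 : Fin 2) (1 : Fin 2) b ∈ B := by
          have := hB (el 0 1 (by decide) b) (by simp [S])
          simpa [el] using this
        have e2 : Matrix.single (1 : Fin 2) (0 : Fin 2) (1 : A) ∈ B := by
          have := hB (el 1 0 (by decide) 1) (by simp [S])
          simpa [el] using this
        have key : ∀ c : A, Matrix.single (0 : Fin 2) (1 : Fin 2) c ∈ B →
            Matrix.scalarAlgHom (Fin 2) (ZMod 2) c ∈ B := by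
          intro c hc
          have h3 : Matrix.scalarAlgHom (Fin 2) (ZMod 2) c =
              Matrix.single (0 : Fin 2) (1 : Fin 2) c * Matrix.single (1 : Fin 2) (0 : Fin 2) (1 : A) +
              Matrix.single (1 : Fin 2) (0 : Fin 2) (1 : A) * Matrix.single (0 : Fin 2) (1 : Fin 2) c := by
            ext i j
            fin_cases i <;> fin_cases j <;> simp [Matrix.mul_apply]
          rw [h3]
          exact B.add_mem (B.mul_mem hc e2) (B.mul_mem e2 hc)
        have h4 : Algebra.adjoin (ZMod 2) {a, b} ≤ B.comap (Matrix.scalarAlgHom (Fin 2) (ZMod 2)) := by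
          rw [Algebra.adjoin_le_iff]
          rintro x (rfl | rfl)
          · exact key _ ea
          · exact key _ eb
        rw [hab] at h4
        intro c
        exact h4 (Algebra.mem_top : c ∈ _)
    rw [Set.not_finite] at h1
    exact h1.to_subtype
  · intro g
    have := htor g.1
    rw [isOfFinOrder_iff_pow_eq_one] at this ⊢
    obtain ⟨n, hn, h⟩ := this
    exact ⟨n, hn, Subtype.ext h⟩

end Pool.Agent.X196.TorsionGroup
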