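import Mathlib

/-!
# Dimensions of spaces of intertwiners
-/

set_option autoImplicit false

namespace Pool.Agent.X196.Lin

open Module

universe u

variable {K : Type u} [Field K]

/-- dimension of a submodule through its image and the kernel -/
lemma finrank_le_map_add {V W : Type u} [AddCommGroup V] [Module K V] [AddCommGroup W] [Module K W]
    [FiniteDimensional K V] (f : V →ₗ[K] W) (p : Submodule K V) :
    finrank K p = finrank K (p.map f) + finrank K (p ⊓ LinearMap.ker f : Submodule K V) := by
  have h1 := LinearMap.finrank_range_add_finrank_ker (f.domRestrict p)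
  have h2 : LinearMap.range (f.domRestrict p) = p.map f := LinearMap.range_domRestrict p f
  have h3 : finrank K (LinearMap.ker (f.domRestrict p)) =
      finrank K (p ⊓ LinearMap.ker f : Submodule K V) := by
    have h4 : LinearMap.ker (f.domRestrict p) = (LinearMap.ker f).comap p.subtype := by
      ext x
      rfl
    rw [h4, ← Submodule.finrank_map_subtype_eq p, Submodule.map_comap_subtype]
  rw [h2, h3] at h1
  exact h1.symm

/-- the space of intertwiners -/
def Inter {U W : Type u} [AddCommGroup U] [Module K U] [AddCommGroup W] [Module K W]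
    (Y : U →ₗ[K] U) (Q : W →ₗ[K] W) : Submodule K (U →ₗ[K] W) where
  carrier := {T | T ∘ₗ Y = Q ∘ₗ T}
  add_mem' := by
    intro S T hS hT
    show (S + T) ∘ₗ Y = Q ∘ₗ (S + T)
    rw [LinearMap.add_comp, LinearMap.comp_add, hS, hT]
  zero_mem' := by
    show (0 : U →ₗ[K] W) ∘ₗ Y = Q ∘ₗ 0
    rw [LinearMap.zero_comp, LinearMap.comp_zero]
  smul_mem' := by
    intro c T hT
    show (c • T) ∘ₗ Y = Q ∘ₗ (c • T)
    rw [LinearMap.smul_comp, LinearMap.comp_smul, hT]

lemma mem_Inter {U W : Type u} [AddCommGroup U] [Module K U] [AddCommGroup W] [Module K W]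
    {Y : U →ₗ[K] U} {Q : W →ₗ[K] W} {T : U →ₗ[K] W} : T ∈ Inter Y Q ↔ T ∘ₗ Y = Q ∘ₗ T := Iff.rfl

/-- the central bound on the dimension of the space of intertwiners -/
theorem finrank_Inter_le {W : Type u} [AddCommGroup W] [Module K W] [FiniteDimensional K W]
    (Q : W →ₗ[K] W) (g : ℝ) (hg : (finrank K W : ℝ) ≤ 2 * g)
    (hQ : ∀ μ : K, (finrank K (LinearMap.ker (Q - μ • LinearMap.id)) : ℝ) ≤ g) :
    ∀ (n : ℕ) (U : Type u) [AddCommGroup U] [Module K U] [FiniteDimensional K U]
      (Y : U →ₗ[K] U) (R : ℕ), finrank K U = n →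
      (∀ μ : K, R ≤ finrank K (LinearMap.range (Y - μ • LinearMap.id))) →
      (finrank K (Inter Y Q) : ℝ) ≤ ((n : ℝ) - R) * g + R / 2 * finrank K W := by
  intro n
  induction n using Nat.strong_induction_on with
  | _ n ih =>
  intro U _ _ _ Y R hn hR
  have hg0 : 0 ≤ g := by
    have : (0 : ℝ) ≤ finrank K W := Nat.cast_nonneg _
    linarith
  by_cases hsc : ∃ a : K, Y = a • 1
  · -- the scalar case
    obtain ⟨a, rfl⟩ := hsc
    have hR0 : R = 0 := by
      have h1 := hR a
      have h2 : (a • (1 : U →ₗ[K] U) - a • LinearMap.id) = 0 := by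
        ext x
        simp
      rw [h2, LinearMap.range_zero, finrank_bot] at h1
      omega
    have h1 : finrank K (Inter (a • (1 : U →ₗ[K] U)) Q) ≤
        n * finrank K (LinearMap.ker (Q - a • LinearMap.id)) := by
      let S := LinearMap.ker (Q - a • LinearMap.id)
      let c : (U →ₗ[K] S) →ₗ[K] (U →ₗ[K] W) := LinearMap.compRight K S.subtype
      have h2 : Inter (a • (1 : U →ₗ[K] U)) Q ≤ LinearMap.range c := by
        intro T hT
        rw [mem_Inter] at hT
        have h3 : ∀ x, T x ∈ S := by
          intro x
          have h4 := LinearMap.congr_fun hT x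
          simp only [LinearMap.comp_apply, LinearMap.smul_apply, map_smul] at h4
          show T x ∈ LinearMap.ker (Q - a • LinearMap.id)
          rw [LinearMap.mem_ker, LinearMap.sub_apply, LinearMap.smul_apply, ← h4]
          simp
        refine ⟨T.codRestrict S h3, ?_⟩
        ext x
        rfl
      have h3 := Submodule.finrank_mono h2
      have h4 := LinearMap.finrank_range_le c
      have h5 : finrank K (U →ₗ[K] S) = n * finrank K S := by
        rw [Module.finrank_linearMap, hn]
      rw [h5] at h4
      exact h3.trans h4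
    rw [hR0]
    have h2 : (finrank K (Inter (a • (1 : U →ₗ[K] U)) Q) : ℝ) ≤
        n * finrank K (LinearMap.ker (Q - a • LinearMap.id)) := by
      exact_mod_cast h1
    have h3 := mul_le_mul_of_nonneg_left (hQ a) (Nat.cast_nonneg n : (0 : ℝ) ≤ n)
    simp only [Nat.cast_zero, sub_zero, zero_div, zero_mul, add_zero]
    linarith
  · -- there is a cyclic submodule of dimension at least two
    have hex : ∃ v, LinearIndependent K ![v, Y v] := by
      by_contra hno
      push Not at hno
      exact hsc (LinearMap.exists_eq_smul_id_of_forall_notLinearIndependent hno)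
    obtain ⟨v, hv⟩ := hex
    let U' : Submodule K U := Submodule.span K (Set.range fun i : ℕ => (Y ^ i) v)
    have hU' : U' ≤ U'.comap Y := by
      rw [Submodule.span_le]
      rintro _ ⟨i, rfl⟩
      show Y ((Y ^ i) v) ∈ U'
      refine Submodule.subset_span ⟨i + 1, ?_⟩
      show (Y ^ (i + 1)) v = _
      rw [pow_succ', Module.End.mul_apply]
    have hvU : v ∈ U' := Submodule.subset_span ⟨0, by simp⟩
    have hYvU : Y v ∈ U' := hU' hvU
    have hd2 : 2 ≤ finrank K U' := by
      have h1 : LinearIndependent K ![(⟨v, hvU⟩ : U'), ⟨Y v, hYvU⟩] := by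
        apply LinearIndependent.of_comp U'.subtype
        convert hv using 1
        funext i
        fin_cases i <;> rfl
      have h2 := h1.fintype_card_le_finrank
      simpa using h2
    set d := finrank K U' with hd
    have hdn : finrank K (U ⧸ U') + d = n := by
      rw [← hn]
      exact Submodule.finrank_quotient_add_finrank U'
    let Yb : (U ⧸ U') →ₗ[K] (U ⧸ U') := U'.mapQ U' Y hU'
    have hYb : ∀ μ : K, R - d ≤ finrank K (LinearMap.range (Yb - μ • LinearMap.id)) := by
      intro μ
      have h1 := finrank_le_map_add U'.mkQ (LinearMap.range (Y - μ • LinearMap.id))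
      have h2 : (LinearMap.range (Y - μ • LinearMap.id)).map U'.mkQ ≤
          LinearMap.range (Yb - μ • LinearMap.id) := by
        rintro _ ⟨_, ⟨x, rfl⟩, rfl⟩
        refine ⟨U'.mkQ x, ?_⟩
        simp [Yb]
      have h3 := Submodule.finrank_mono h2
      have h4 : finrank K (LinearMap.range (Y - μ • LinearMap.id) ⊓ LinearMap.ker U'.mkQ :
          Submodule K U) ≤ d := by
        rw [Submodule.ker_mkQ]
        exact Submodule.finrank_mono inf_le_right
      have h5 := hR μ
      omega
    have hih := ih (finrank K (U ⧸ U')) (by omega) (U ⧸ U') Yb (R - d) rfl hYb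
    -- the exact sequence
    have hseq : finrank K (Inter Y Q) ≤ finrank K W + finrank K (Inter Yb Q) := by
      have h1 := finrank_le_map_add (LinearMap.applyₗ v : (U →ₗ[K] W) →ₗ[K] W) (Inter Y Q)
      have h2 : finrank K ((Inter Y Q).map (LinearMap.applyₗ v : (U →ₗ[K] W) →ₗ[K] W)) ≤
          finrank K W := Submodule.finrank_le _
      let c : ((U ⧸ U') →ₗ[K] W) →ₗ[K] (U →ₗ[K] W) := LinearMap.lcomp K W U'.mkQ
      have h3 : (Inter Y Q ⊓ LinearMap.ker (LinearMap.applyₗ v : (U →ₗ[K] W) →ₗ[K] W) :
          Submodule K (U →ₗ[K] W)) ≤ (Inter Yb Q).map c := by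
        rintro T ⟨hT1, hT2⟩
        have hT1' : T ∘ₗ Y = Q ∘ₗ T := hT1
        have hT2' : T v = 0 := hT2
        have h4 : U' ≤ LinearMap.ker T := by
          rw [Submodule.span_le]
          rintro _ ⟨i, rfl⟩
          show T ((Y ^ i) v) = 0
          induction i with
          | zero => simpa using hT2'
          | succ i ihi =>
            have h5 := LinearMap.congr_fun hT1' ((Y ^ i) v)
            simp only [LinearMap.comp_apply] at h5
            rw [pow_succ', Module.End.mul_apply, h5, ihi, map_zero]
        refine ⟨U'.liftQ T h4, ?_, ?_⟩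
        · show (U'.liftQ T h4) ∘ₗ Yb = Q ∘ₗ (U'.liftQ T h4)
          apply Submodule.linearMap_qext
          ext x
          have h5 := LinearMap.congr_fun hT1' x
          simpa [Yb] using h5
        · ext x
          simp [c]
      have h4 := Submodule.finrank_mono h3
      have h5 : finrank K ((Inter Yb Q).map c) ≤ finrank K (Inter Yb Q) :=
        Submodule.finrank_map_le c _
      omega
    have hseq' : (finrank K (Inter Y Q) : ℝ) ≤ finrank K W + finrank K (Inter Yb Q) := by
      exact_mod_cast hseq
    have hdn' : (finrank K (U ⧸ U') : ℝ) = n - d := by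
      rw [← hdn]
      push_cast
      ring
    have hd2' : (2 : ℝ) ≤ d := by exact_mod_cast hd2
    have hw0 : (0 : ℝ) ≤ finrank K W := Nat.cast_nonneg _
    rw [hdn'] at hih
    rcases le_total d R with hdR | hdR
    · have h1 : ((R - d : ℕ) : ℝ) = R - d := by
        rw [Nat.cast_sub hdR]
      rw [h1] at hih
      nlinarith
    · have h1 : R - d = 0 := by omega
      rw [h1] at hih
      simp only [Nat.cast_zero, sub_zero, zero_div, zero_mul, add_zero] at hih
      have hdR' : (R : ℝ) ≤ d := by exact_mod_cast hdR
      nlinarith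

end Pool.Agent.X196.Lin
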