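import Pool.Agent.X196.Lin1

/-!
# Amplification of linear almost representations
-/

set_option autoImplicit false
set_option linter.unusedSectionVars false

namespace Pool.Agent.X196.Lin

open Module

universe u

variable {K : Type u} [Field K]

/-- the rank of a linear map -/
noncomputable def rk {V W : Type u} [AddCommGroup V] [Module K V] [AddCommGroup W] [Module K W]
    (f : V →ₗ[K] W) : ℕ := finrank K (LinearMap.range f)

section Rank

variable {U V W X : Type u} [AddCommGroup U] [Module K U] [AddCommGroup V] [Module K V]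
  [AddCommGroup W] [Module K W] [AddCommGroup X] [Module K X]
  [FiniteDimensional K U] [FiniteDimensional K V] [FiniteDimensional K W] [FiniteDimensional K X]

lemma rk_comp_left (f : V →ₗ[K] W) (g : U →ₗ[K] V) : rk (f ∘ₗ g) ≤ rk f :=
  Submodule.finrank_mono (LinearMap.range_comp_le_range g f)

lemma rk_comp_right (f : V →ₗ[K] W) (g : U →ₗ[K] V) : rk (f ∘ₗ g) ≤ rk g := by
  unfold rk
  rw [LinearMap.range_comp]
  exact Submodule.finrank_map_le f _

lemma rk_add (f g : V →ₗ[K] W) : rk (f + g) ≤ rk f + rk g := by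
  have h1 : LinearMap.range (f + g) ≤ LinearMap.range f ⊔ LinearMap.range g := by
    rintro _ ⟨x, rfl⟩
    exact Submodule.add_mem_sup ⟨x, rfl⟩ ⟨x, rfl⟩
  exact (Submodule.finrank_mono h1).trans (Submodule.finrank_add_le_finrank_add_finrank _ _)

lemma rk_neg (f : V →ₗ[K] W) : rk (-f) = rk f := by
  unfold rk
  rw [LinearMap.range_neg]

lemma rk_add_ker (f : V →ₗ[K] W) : rk f + finrank K (LinearMap.ker f) = finrank K V :=
  LinearMap.finrank_range_add_finrank_ker f

/-- the map `T ↦ A ∘ T ∘ C` -/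
def sand (A : W →ₗ[K] X) (C : U →ₗ[K] V) : (V →ₗ[K] W) →ₗ[K] (U →ₗ[K] X) :=
  (LinearMap.compRight K A) ∘ₗ (LinearMap.lcomp K W C)

lemma sand_apply (A : W →ₗ[K] X) (C : U →ₗ[K] V) (T : V →ₗ[K] W) :
    sand A C T = A ∘ₗ T ∘ₗ C := rfl

lemma rk_sand_left (A : W →ₗ[K] X) (C : U →ₗ[K] V) : rk (sand A C) ≤ finrank K U * rk A := by
  let S := LinearMap.range A
  let c : (U →ₗ[K] S) →ₗ[K] (U →ₗ[K] X) := LinearMap.compRight K S.subtype
  have h1 : LinearMap.range (sand A C) ≤ LinearMap.range c := by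
    rintro _ ⟨T, rfl⟩
    refine ⟨(A.rangeRestrict) ∘ₗ T ∘ₗ C, ?_⟩
    ext x
    rfl
  have h2 := Submodule.finrank_mono h1
  have h3 := LinearMap.finrank_range_le c
  rw [Module.finrank_linearMap] at h3
  exact h2.trans h3

lemma rk_sand_right (A : W →ₗ[K] X) (C : U →ₗ[K] V) : rk (sand A C) ≤ rk C * finrank K W := by
  let S := LinearMap.range C
  let c : (S →ₗ[K] W) →ₗ[K] (U →ₗ[K] X) := sand A C.rangeRestrict
  have h1 : LinearMap.range (sand A C) ≤ LinearMap.range c := by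
    rintro _ ⟨T, rfl⟩
    refine ⟨T ∘ₗ S.subtype, ?_⟩
    ext x
    rfl
  have h2 := Submodule.finrank_mono h1
  have h3 := LinearMap.finrank_range_le c
  rw [Module.finrank_linearMap] at h3
  exact h2.trans h3

end Rank

/-- the automorphism `T ↦ f ∘ T ∘ e⁻¹` -/
def arr {V W : Type u} [AddCommGroup V] [Module K V] [AddCommGroup W] [Module K W]
    (e : V ≃ₗ[K] V) (f : W ≃ₗ[K] W) : (V →ₗ[K] W) ≃ₗ[K] (V →ₗ[K] W) :=
  LinearEquiv.arrowCongr e f

lemma arr_apply {V W : Type u} [AddCommGroup V] [Module K V] [AddCommGroup W] [Module K W]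
    (e : V ≃ₗ[K] V) (f : W ≃ₗ[K] W) (T : V →ₗ[K] W) (x : V) :
    arr e f T x = f (T (e.symm x)) := rfl

/-- **Amplification.** -/
theorem amplify {G : Type} [Group G] (F : Finset G) {V : Type u} [AddCommGroup V] [Module K V]
    [FiniteDimensional K V] (φ : G → (V ≃ₗ[K] V)) (δ r : ℝ) (hV : 0 < finrank K V)
    (hφ1 : ∀ g ∈ F, ∀ h ∈ F, (rk ((φ g : V →ₗ[K] V) ∘ₗ (φ h : V →ₗ[K] V) -
      (φ (g * h) : V →ₗ[K] V)) : ℝ) ≤ δ * finrank K V)
    (hφ2 : ∀ g ∈ F, ∀ h ∈ F, g ≠ h → ∀ μ : K, r * finrank K V ≤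
      rk (((φ h).symm : V →ₗ[K] V) ∘ₗ (φ g : V →ₗ[K] V) - μ • LinearMap.id)) :
    ∀ m : ℕ, ∃ (W : Type u) (_ : AddCommGroup W) (_ : Module K W) (_ : FiniteDimensional K W)
      (ψ : G → (W ≃ₗ[K] W)), 0 < finrank K W ∧
      (∀ g ∈ F, ∀ h ∈ F, (rk ((ψ g : W →ₗ[K] W) ∘ₗ (ψ h : W →ₗ[K] W) -
        (ψ (g * h) : W →ₗ[K] W)) : ℝ) ≤ m * δ * finrank K W) ∧
      ∀ g ∈ F, ∀ h ∈ F, g ≠ h → ∀ μ : K,
        (finrank K (LinearMap.ker (((ψ g).symm : W →ₗ[K] W) ∘ₗ (ψ h : W →ₗ[K] W) -
          μ • LinearMap.id)) : ℝ) ≤ (1 / 2 + 1 / 2 * (1 - r) ^ m) * finrank K W := by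
  intro m
  induction m with
  | zero =>
    refine ⟨K, inferInstance, inferInstance, inferInstance, fun _ => LinearEquiv.refl K K, ?_, ?_, ?_⟩
    · rw [Module.finrank_self]
      exact one_pos
    · intro g _ h _
      have h1 : ((LinearEquiv.refl K K : K →ₗ[K] K) ∘ₗ (LinearEquiv.refl K K : K →ₗ[K] K) -
        (LinearEquiv.refl K K : K →ₗ[K] K)) = 0 := by
        ext
        simp
      rw [h1]
      simp [rk]
    · intro g _ h _ _ μ
      have h1 := Submodule.finrank_le (LinearMap.ker (((LinearEquiv.refl K K).symm : K →ₗ[K] K) ∘ₗ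
        (LinearEquiv.refl K K : K →ₗ[K] K) - μ • LinearMap.id))
      rw [pow_zero]
      have h2 : (1 / 2 + 1 / 2 * 1 : ℝ) = 1 := by norm_num
      rw [h2, one_mul]
      exact_mod_cast h1
  | succ m ih =>
    obtain ⟨W, _, _, _, ψ, hW, h1, h2⟩ := ih
    have hN : finrank K (V →ₗ[K] W) = finrank K V * finrank K W := Module.finrank_linearMap _ _ _ _
    refine ⟨V →ₗ[K] W, inferInstance, inferInstance, inferInstance,
      fun g => arr (φ g) (ψ g), ?_, ?_, ?_⟩
    · rw [hN]
      exact Nat.mul_pos hV hW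
    · intro g hg h hh
      set A : W →ₗ[K] W := (ψ g : W →ₗ[K] W) ∘ₗ (ψ h : W →ₗ[K] W) with hA
      set B : W →ₗ[K] W := (ψ (g * h) : W →ₗ[K] W) with hB
      set C : V →ₗ[K] V := ((φ h).symm : V →ₗ[K] V) ∘ₗ ((φ g).symm : V →ₗ[K] V) with hC
      set D : V →ₗ[K] V := ((φ (g * h)).symm : V →ₗ[K] V) with hD
      have h3 : ((arr (φ g) (ψ g) : (V →ₗ[K] W) →ₗ[K] (V →ₗ[K] W)) ∘ₗ
          (arr (φ h) (ψ h) : (V →ₗ[K] W) →ₗ[K] (V →ₗ[K] W)) -
          (arr (φ (g * h)) (ψ (g * h)) : (V →ₗ[K] W) →ₗ[K] (V →ₗ[K] W))) =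
          sand (A - B) C + sand B (C - D) := by
        ext T x
        simp [sand_apply, hA, hB, hC, hD, arr_apply]
      have h4 : rk (C - D) ≤ rk ((φ g : V →ₗ[K] V) ∘ₗ (φ h : V →ₗ[K] V) -
          (φ (g * h) : V →ₗ[K] V)) := by
        have h5 : C - D = -(C ∘ₗ ((φ g : V →ₗ[K] V) ∘ₗ (φ h : V →ₗ[K] V) -
          (φ (g * h) : V →ₗ[K] V)) ∘ₗ D) := by
          ext x
          simp [hC, hD]
        rw [h5, rk_neg]
        exact (rk_comp_right _ _).trans (rk_comp_left _ _)
      have h5 : rk (sand (A - B) C + sand B (C - D)) ≤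
          finrank K V * rk (A - B) + rk (C - D) * finrank K W :=
        (rk_add _ _).trans (add_le_add (rk_sand_left _ _) (rk_sand_right _ _))
      have h6 : (rk (sand (A - B) C + sand B (C - D)) : ℝ) ≤
          finrank K V * rk (A - B) + rk (C - D) * finrank K W := by exact_mod_cast h5
      have h7 : (rk (A - B) : ℝ) ≤ m * δ * finrank K W := h1 g hg h hh
      have h8 : (rk (C - D) : ℝ) ≤ δ * finrank K V :=
        (by exact_mod_cast h4 : (rk (C - D) : ℝ) ≤ _).trans (hφ1 g hg h hh)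
      rw [h3, hN]
      push_cast
      have hV0 : (0 : ℝ) ≤ finrank K V := Nat.cast_nonneg _
      have hW0 : (0 : ℝ) ≤ finrank K W := Nat.cast_nonneg _
      nlinarith [mul_le_mul_of_nonneg_left h7 hV0, mul_le_mul_of_nonneg_right h8 hW0]
    · intro g hg h hh hgh μ
      have hW0 : (0 : ℝ) ≤ finrank K W := Nat.cast_nonneg _
      have hV0 : (0 : ℝ) ≤ finrank K V := Nat.cast_nonneg _
      have hr1 : r ≤ 1 := by
        have h3 := hφ2 g hg h hh hgh 0
        have h4 : rk (((φ h).symm : V →ₗ[K] V) ∘ₗ (φ g : V →ₗ[K] V) - (0 : K) • LinearMap.id) ≤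
            finrank K V := Submodule.finrank_le _
        have h5 : (rk (((φ h).symm : V →ₗ[K] V) ∘ₗ (φ g : V →ₗ[K] V) - (0 : K) • LinearMap.id) : ℝ)
          ≤ finrank K V := by exact_mod_cast h4
        have hV1 : (0 : ℝ) < finrank K V := by exact_mod_cast hV
        by_contra h6
        push Not at h6
        nlinarith
      have hpow : 0 ≤ (1 - r) ^ (m + 1) := pow_nonneg (by linarith) _
      have hpow' : 0 ≤ (1 - r) ^ m := pow_nonneg (by linarith) _
      by_cases hμ : μ = 0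
      · have h3 : LinearMap.ker (((arr (φ g) (ψ g)).symm :
            (V →ₗ[K] W) →ₗ[K] (V →ₗ[K] W)) ∘ₗ
            (arr (φ h) (ψ h) : (V →ₗ[K] W) →ₗ[K] (V →ₗ[K] W)) -
            μ • LinearMap.id) = ⊥ := by
          rw [hμ, zero_smul, sub_zero, LinearMap.ker_eq_bot]
          intro S T hST
          exact (arr (φ h) (ψ h)).injective ((arr (φ g) (ψ g)).symm.injective hST)
        rw [h3, finrank_bot, Nat.cast_zero]
        positivity
      · let Y : V →ₗ[K] V := ((φ h).symm : V →ₗ[K] V) ∘ₗ (φ g : V →ₗ[K] V)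
        let Q : W →ₗ[K] W := μ • (((ψ h).symm : W →ₗ[K] W) ∘ₗ (ψ g : W →ₗ[K] W))
        have h3 : LinearMap.ker (((arr (φ g) (ψ g)).symm :
            (V →ₗ[K] W) →ₗ[K] (V →ₗ[K] W)) ∘ₗ
            (arr (φ h) (ψ h) : (V →ₗ[K] W) →ₗ[K] (V →ₗ[K] W)) -
            μ • LinearMap.id) ≤ Inter Y Q := by
          intro T hT
          rw [LinearMap.mem_ker, LinearMap.sub_apply, sub_eq_zero] at hT
          have h4 : arr (φ h) (ψ h) T =
              μ • arr (φ g) (ψ g) T := by
            have h5 : (arr (φ g) (ψ g)).symm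
                (arr (φ h) (ψ h) T) = μ • T := hT
            rw [LinearEquiv.symm_apply_eq] at h5
            rw [h5, map_smul]
          rw [mem_Inter]
          ext x
          have h5 := LinearMap.congr_fun h4 (φ g x)
          simp only [arr_apply, LinearMap.smul_apply,
            LinearEquiv.symm_apply_apply] at h5
          show T ((φ h).symm (φ g x)) = μ • (ψ h).symm (ψ g (T x))
          rw [← map_smul, LinearEquiv.eq_symm_apply, h5]
        have hg0 : (finrank K W : ℝ) ≤ 2 * ((1 / 2 + 1 / 2 * (1 - r) ^ m) * finrank K W) := by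
          have := mul_nonneg hpow' hW0
          linarith
        have hQ : ∀ ν : K, (finrank K (LinearMap.ker (Q - ν • LinearMap.id)) : ℝ) ≤
            (1 / 2 + 1 / 2 * (1 - r) ^ m) * finrank K W := by
          intro ν
          have h4 : LinearMap.ker (Q - ν • LinearMap.id) = LinearMap.ker
              (((ψ h).symm : W →ₗ[K] W) ∘ₗ (ψ g : W →ₗ[K] W) - (μ⁻¹ * ν) • LinearMap.id) := by
            have h5 : Q - ν • LinearMap.id = μ •
                (((ψ h).symm : W →ₗ[K] W) ∘ₗ (ψ g : W →ₗ[K] W) - (μ⁻¹ * ν) • LinearMap.id) := by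
              rw [smul_sub, smul_smul, mul_inv_cancel_left₀ hμ]
            rw [h5, LinearMap.ker_smul _ _ hμ]
          rw [h4]
          exact h2 h hh g hg (Ne.symm hgh) _
        have hR : ∀ ν : K, ⌈r * finrank K V⌉₊ ≤
            finrank K (LinearMap.range (Y - ν • LinearMap.id)) := by
          intro ν
          exact Nat.ceil_le.2 (hφ2 g hg h hh hgh ν)
        have h4 := finrank_Inter_le Q _ hg0 hQ (finrank K V) V Y ⌈r * finrank K V⌉₊ rfl hR
        have h5 : (finrank K (LinearMap.ker (((arr (φ g) (ψ g)).symm :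
            (V →ₗ[K] W) →ₗ[K] (V →ₗ[K] W)) ∘ₗ
            (arr (φ h) (ψ h) : (V →ₗ[K] W) →ₗ[K] (V →ₗ[K] W)) -
            μ • LinearMap.id)) : ℝ) ≤ finrank K (Inter Y Q) := by
          exact_mod_cast Submodule.finrank_mono h3
        have h6 := Nat.le_ceil (r * finrank K V : ℝ)
        refine h5.trans (h4.trans ?_)
        rw [hN]
        push_cast
        have h7 : 0 ≤ ((⌈r * finrank K V⌉₊ : ℝ) - r * finrank K V) *
            ((1 - r) ^ m * finrank K W) :=
          mul_nonneg (by linarith) (mul_nonneg hpow' hW0)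
        rw [pow_succ]
        nlinarith

end Pool.Agent.X196.Lin
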