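import Pool.Agent.X196.Lin2

/-!
# The upper bound for elementary abelian two-groups
-/

set_option autoImplicit false
set_option linter.unusedSectionVars false

namespace Pool.Agent.X196.Lin

open Module

universe u

variable {K : Type u} [Field K]

section UB

variable {G : Type} [Group G] [Fintype G] {V : Type u} [AddCommGroup V] [Module K V]
  [FiniteDimensional K V]

/-- the family `f` is a representation on the subspace `p` -/
structure RepOn (f : G → (V →ₗ[K] V)) (p : Submodule K V) : Prop where
  inv : ∀ g, ∀ w ∈ p, f g w ∈ p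
  mul : ∀ g h, ∀ w ∈ p, f g (f h w) = f (g * h) w
  one : ∀ w ∈ p, f 1 w = w

lemma ub_char_two (h2 : (2 : K) = 0) (hG : ∀ g : G, g * g = 1) (f : G → (V →ₗ[K] V))
    (p : Submodule K V) (hp : RepOn f p) :
    2 * ∑ g, finrank K (p.map (f g - LinearMap.id)) ≤ Fintype.card G * finrank K p := by
  rw [Finset.mul_sum]
  have h1 : ∀ g : G, 2 * finrank K (p.map (f g - LinearMap.id)) ≤ finrank K p := by
    intro g
    have h3 := finrank_le_map_add (f g - LinearMap.id) p
    have h4 : p.map (f g - LinearMap.id) ≤ p ⊓ LinearMap.ker (f g - LinearMap.id) := by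
      rintro _ ⟨w, hw, rfl⟩
      refine ⟨p.sub_mem (hp.inv g w hw) hw, ?_⟩
      have h5 : f g (f g w) = w := by
        rw [hp.mul g g w hw, hG, hp.one w hw]
      show (f g - LinearMap.id : V →ₗ[K] V) ((f g - LinearMap.id : V →ₗ[K] V) w) = 0
      simp only [LinearMap.sub_apply, LinearMap.id_apply, map_sub, h5]
      have h6 : w - f g w - (f g w - w) = (2 : K) • (w - f g w) := by
        rw [two_smul]
        abel
      rw [h6, h2, zero_smul]
    have h5 := Submodule.finrank_mono h4
    omega
  calc ∑ g : G, 2 * finrank K (p.map (f g - LinearMap.id)) ≤ ∑ _g : G, finrank K p :=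
        Finset.sum_le_sum fun g _ => h1 g
    _ = Fintype.card G * finrank K p := by
        rw [Finset.sum_const, Finset.card_univ, smul_eq_mul]

lemma ub_char_ne_two (h2 : (2 : K) ≠ 0) (hG : ∀ g : G, g * g = 1) (f : G → (V →ₗ[K] V)) :
    ∀ (n : ℕ) (p : Submodule K V), finrank K p = n → RepOn f p →
    2 * ∑ g, finrank K (p.map (f g - LinearMap.id)) ≤ Fintype.card G * finrank K p := by
  classical
  have hcomm : ∀ a g : G, a * g = g * a := by
    intro a g
    have h3 := hG (a * g)
    have ha : a⁻¹ = a := inv_eq_of_mul_eq_one_left (hG a)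
    have hg : g⁻¹ = g := inv_eq_of_mul_eq_one_left (hG g)
    have h4 : a * g = (a * g)⁻¹ := (inv_eq_of_mul_eq_one_left h3).symm
    rw [h4, mul_inv_rev, ha, hg]
  intro n
  induction n using Nat.strong_induction_on with
  | _ n ih =>
  intro p hn hp
  by_cases hsc : ∀ g, (∀ w ∈ p, f g w = w) ∨ (∀ w ∈ p, f g w = -w)
  · have hr0 : ∀ g, (∀ w ∈ p, f g w = w) → finrank K (p.map (f g - LinearMap.id)) = 0 := by
      intro g hg
      have h3 : p.map (f g - LinearMap.id) = ⊥ := by
        rw [eq_bot_iff]
        rintro _ ⟨w, hw, rfl⟩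
        simp [hg w hw]
      rw [h3, finrank_bot]
    by_cases hall : ∀ g, ∀ w ∈ p, f g w = w
    · rw [Finset.sum_eq_zero fun g _ => hr0 g (hall g)]
      simp
    · push Not at hall
      obtain ⟨g0, w0, hw0, hne⟩ := hall
      have hg0 : ∀ w ∈ p, f g0 w = -w := by
        rcases hsc g0 with h | h
        · exact absurd (h w0 hw0) hne
        · exact h
      have hsum : ∑ g, finrank K (p.map (f g - LinearMap.id)) =
          ∑ g, finrank K (p.map (f (g0 * g) - LinearMap.id)) :=
        (Equiv.sum_comp (Equiv.mulLeft g0) fun g => finrank K (p.map (f g - LinearMap.id))).symm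
      have h3 : 2 * ∑ g, finrank K (p.map (f g - LinearMap.id)) =
          ∑ g, (finrank K (p.map (f g - LinearMap.id)) +
            finrank K (p.map (f (g0 * g) - LinearMap.id))) := by
        rw [Finset.sum_add_distrib, ← hsum, two_mul]
      rw [h3]
      calc ∑ g, (finrank K (p.map (f g - LinearMap.id)) +
            finrank K (p.map (f (g0 * g) - LinearMap.id))) ≤ ∑ _g : G, finrank K p := by
            refine Finset.sum_le_sum fun g _ => ?_
            rcases hsc g with h | h
            · rw [hr0 g h, zero_add]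
              exact Submodule.finrank_map_le _ _
            · have h4 : ∀ w ∈ p, f (g0 * g) w = w := by
                intro w hw
                rw [← hp.mul g0 g w hw, h w hw, map_neg, hg0 w hw, neg_neg]
              rw [hr0 _ h4, add_zero]
              exact Submodule.finrank_map_le _ _
        _ = Fintype.card G * finrank K p := by
            rw [Finset.sum_const, Finset.card_univ, smul_eq_mul]
  · push Not at hsc
    obtain ⟨a, ⟨w1, hw1, hne1⟩, ⟨w2, hw2, hne2⟩⟩ := hsc
    have haa : ∀ w ∈ p, f a (f a w) = w := by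
      intro w hw
      rw [hp.mul a a w hw, hG, hp.one w hw]
    let pp : Submodule K V := p ⊓ LinearMap.ker (f a - LinearMap.id)
    let pm : Submodule K V := p ⊓ LinearMap.ker (f a + LinearMap.id)
    have hmem_pp : ∀ w, w ∈ pp ↔ w ∈ p ∧ f a w = w := by
      intro w
      show (w ∈ p ∧ (f a - LinearMap.id : V →ₗ[K] V) w = 0) ↔ _
      rw [LinearMap.sub_apply, LinearMap.id_apply, sub_eq_zero]
    have hmem_pm : ∀ w, w ∈ pm ↔ w ∈ p ∧ f a w = -w := by
      intro w
      show (w ∈ p ∧ (f a + LinearMap.id : V →ₗ[K] V) w = 0) ↔ _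
      rw [LinearMap.add_apply, LinearMap.id_apply, add_eq_zero_iff_eq_neg]
    have hsup : pp ⊔ pm = p := by
      apply le_antisymm (sup_le inf_le_left inf_le_left)
      intro w hw
      have h3 : w = (2 : K)⁻¹ • (w + f a w) + (2 : K)⁻¹ • (w - f a w) := by
        rw [← smul_add]
        have h4 : w + f a w + (w - f a w) = (2 : K) • w := by
          rw [two_smul]
          abel
        rw [h4, smul_smul, inv_mul_cancel₀ h2, one_smul]
      rw [h3]
      refine Submodule.add_mem_sup ?_ ?_
      · rw [hmem_pp]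
        refine ⟨p.smul_mem _ (p.add_mem hw (hp.inv a w hw)), ?_⟩
        rw [map_smul, map_add, haa w hw, add_comm]
      · rw [hmem_pm]
        refine ⟨p.smul_mem _ (p.sub_mem hw (hp.inv a w hw)), ?_⟩
        rw [map_smul, map_sub, haa w hw, ← smul_neg, neg_sub]
    have hinf : pp ⊓ pm = ⊥ := by
      rw [eq_bot_iff]
      intro w hw
      have h3 := ((hmem_pp w).1 hw.1).2
      have h4 := ((hmem_pm w).1 hw.2).2
      rw [h3] at h4
      have h5 : (2 : K) • w = 0 := by
        rw [two_smul]
        nth_rw 1 [h4]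
        exact neg_add_cancel w
      rcases smul_eq_zero.1 h5 with h6 | h6
      · exact absurd h6 h2
      · rw [h6]
        exact Submodule.zero_mem _
    have hdim : finrank K pp + finrank K pm = finrank K p := by
      have h3 := Submodule.finrank_sup_add_finrank_inf_eq pp pm
      rw [hsup, hinf, finrank_bot, add_zero] at h3
      exact h3.symm
    have hlt1 : finrank K pp < finrank K p := by
      apply Submodule.finrank_lt_finrank_of_lt
      refine lt_of_le_of_ne inf_le_left fun h => hne1 ?_
      rw [← h] at hw1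
      exact ((hmem_pp w1).1 hw1).2
    have hlt2 : finrank K pm < finrank K p := by
      apply Submodule.finrank_lt_finrank_of_lt
      refine lt_of_le_of_ne inf_le_left fun h => hne2 ?_
      rw [← h] at hw2
      exact ((hmem_pm w2).1 hw2).2
    have hcm : ∀ g, ∀ w ∈ p, f a (f g w) = f g (f a w) := by
      intro g w hw
      rw [hp.mul a g w hw, hcomm, hp.mul g a w hw]
    have hrp : RepOn f pp := by
      refine ⟨?_, ?_, ?_⟩
      · intro g w hw
        rw [hmem_pp] at hw ⊢
        refine ⟨hp.inv g w hw.1, ?_⟩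
        rw [hcm g w hw.1, hw.2]
      · intro g h w hw
        exact hp.mul g h w ((hmem_pp w).1 hw).1
      · intro w hw
        exact hp.one w ((hmem_pp w).1 hw).1
    have hrm : RepOn f pm := by
      refine ⟨?_, ?_, ?_⟩
      · intro g w hw
        rw [hmem_pm] at hw ⊢
        refine ⟨hp.inv g w hw.1, ?_⟩
        rw [hcm g w hw.1, hw.2, map_neg]
      · intro g h w hw
        exact hp.mul g h w ((hmem_pm w).1 hw).1
      · intro w hw
        exact hp.one w ((hmem_pm w).1 hw).1
    have ih1 := ih (finrank K pp) (by omega) pp rfl hrp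
    have ih2 := ih (finrank K pm) (by omega) pm rfl hrm
    have hsplit : ∀ g, finrank K (p.map (f g - LinearMap.id)) ≤
        finrank K (pp.map (f g - LinearMap.id)) + finrank K (pm.map (f g - LinearMap.id)) := by
      intro g
      conv_lhs => rw [← hsup, Submodule.map_sup]
      exact Submodule.finrank_add_le_finrank_add_finrank _ _
    have h3 := Finset.sum_le_sum fun (g : G) (_ : g ∈ Finset.univ) => hsplit g
    rw [Finset.sum_add_distrib] at h3
    rw [← hdim, mul_add]
    omega

lemma ub (hG : ∀ g : G, g * g = 1) (f : G → (V →ₗ[K] V)) (p : Submodule K V) (hp : RepOn f p) :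
    2 * ∑ g, finrank K (p.map (f g - LinearMap.id)) ≤ Fintype.card G * finrank K p := by
  by_cases h2 : (2 : K) = 0
  · exact ub_char_two h2 hG f p hp
  · exact ub_char_ne_two h2 hG f _ p rfl hp

/-- the intersection of kernels has small codimension -/
lemma finrank_iInf_ker {ι : Type} (s : Finset ι) (T : ι → (V →ₗ[K] V)) :
    finrank K V ≤ finrank K (⨅ i ∈ s, LinearMap.ker (T i) : Submodule K V) + ∑ i ∈ s, rk (T i) := by
  classical
  induction s using Finset.induction_on with
  | empty =>
    have h : (⨅ i ∈ (∅ : Finset ι), LinearMap.ker (T i) : Submodule K V) = ⊤ := by simp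
    rw [h, finrank_top]
    exact Nat.le_add_right _ _
  | insert i s his ih =>
    rw [Finset.sum_insert his, Finset.iInf_insert]
    have h1 := finrank_le_map_add (T i) (⨅ i ∈ s, LinearMap.ker (T i) : Submodule K V)
    have h2 : finrank K ((⨅ i ∈ s, LinearMap.ker (T i) : Submodule K V).map (T i)) ≤ rk (T i) :=
      Submodule.finrank_mono (LinearMap.map_le_range)
    rw [inf_comm] at h1
    omega

lemma rk_le_map (T : V →ₗ[K] V) (p : Submodule K V) :
    rk T + finrank K p ≤ finrank K (p.map T) + finrank K V := by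
  have h1 := finrank_le_map_add T p
  have h2 := rk_add_ker T
  have h3 : finrank K (p ⊓ LinearMap.ker T : Submodule K V) ≤ finrank K (LinearMap.ker T) :=
    Submodule.finrank_mono inf_le_right
  omega

/-- The bound for families of automorphisms of `V` indexed by a finite group of exponent two. -/
theorem sum_rk_le (hG : ∀ g : G, g * g = 1) (f : G → (V ≃ₗ[K] V)) :
    2 * ∑ g, rk ((f g : V →ₗ[K] V) - (f 1 : V →ₗ[K] V)) ≤ Fintype.card G * finrank K V +
      2 * Fintype.card G * ∑ i : G × G,
        rk ((f i.1 : V →ₗ[K] V) ∘ₗ (f i.2 : V →ₗ[K] V) - (f (i.1 * i.2) : V →ₗ[K] V)) := by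
  classical
  let T : G × G → (V →ₗ[K] V) := fun i =>
    (f i.1 : V →ₗ[K] V) ∘ₗ (f i.2 : V →ₗ[K] V) - (f (i.1 * i.2) : V →ₗ[K] V)
  let p : Submodule K V := ⨅ i ∈ (Finset.univ : Finset (G × G)), LinearMap.ker (T i)
  have hmem : ∀ w ∈ p, ∀ g h, f g (f h w) = f (g * h) w := by
    intro w hw g h
    have h1 : w ∈ LinearMap.ker (T (g, h)) := by
      have h2 := (Submodule.mem_iInf _).1 hw (g, h)
      exact (Submodule.mem_iInf _).1 h2 (Finset.mem_univ _)
    have h3 : f g (f h w) - f (g * h) w = 0 := h1
    exact sub_eq_zero.1 h3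
  have hmem' : ∀ w, (∀ g h, f g (f h w) = f (g * h) w) → w ∈ p := by
    intro w hw
    refine (Submodule.mem_iInf _).2 fun i => (Submodule.mem_iInf _).2 fun _ => ?_
    show f i.1 (f i.2 w) - f (i.1 * i.2) w = 0
    rw [hw, sub_self]
  have hrep : RepOn (fun g => (f g : V →ₗ[K] V)) p := by
    refine ⟨?_, ?_, ?_⟩
    · intro k w hw
      apply hmem'
      intro g h
      have h1 := hmem w hw
      show f g (f h (f k w)) = f (g * h) (f k w)
      rw [h1 h k, h1 g (h * k), h1 (g * h) k, mul_assoc]
    · intro g h w hw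
      exact hmem w hw g h
    · intro w hw
      have h1 := hmem w hw 1 1
      rw [mul_one] at h1
      exact (f 1).injective h1
  have h1 := ub hG (fun g => (f g : V →ₗ[K] V)) p hrep
  have h2 := finrank_iInf_ker (Finset.univ : Finset (G × G)) T
  have h3 : ∀ g, rk ((f g : V →ₗ[K] V) - (f 1 : V →ₗ[K] V)) + finrank K p ≤
      finrank K (p.map ((f g : V →ₗ[K] V) - LinearMap.id)) + finrank K V := by
    intro g
    have h4 := rk_le_map ((f g : V →ₗ[K] V) - (f 1 : V →ₗ[K] V)) p
    have h5 : p.map ((f g : V →ₗ[K] V) - (f 1 : V →ₗ[K] V)) ≤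
        p.map ((f g : V →ₗ[K] V) - LinearMap.id) := by
      rintro _ ⟨w, hw, rfl⟩
      refine ⟨w, hw, ?_⟩
      have h6 := hrep.one w hw
      show f g w - w = f g w - f 1 w
      have h7 : f 1 w = w := h6
      rw [h7]
    have h6 := Submodule.finrank_mono h5
    omega
  have h4 := Finset.sum_le_sum fun (g : G) (_ : g ∈ Finset.univ) => h3 g
  rw [Finset.sum_add_distrib, Finset.sum_add_distrib, Finset.sum_const, Finset.sum_const,
    Finset.card_univ, smul_eq_mul, smul_eq_mul] at h4
  have h2' : finrank K V ≤ finrank K p + ∑ i, rk (T i) := h2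
  have h5 : Fintype.card G * finrank K V ≤ Fintype.card G * (finrank K p + ∑ i, rk (T i)) :=
    Nat.mul_le_mul_left _ h2'
  have h6 : finrank K p ≤ finrank K V := Submodule.finrank_le _
  have h7 : Fintype.card G * finrank K p ≤ Fintype.card G * finrank K V := Nat.mul_le_mul_left _ h6
  show 2 * ∑ g, rk ((f g : V →ₗ[K] V) - (f 1 : V →ₗ[K] V)) ≤ Fintype.card G * finrank K V +
      2 * Fintype.card G * ∑ i, rk (T i)
  rw [mul_add] at h5
  rw [mul_assoc]
  omega

end UB

end Pool.Agent.X196.Lin
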