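import Mathlib

/-!
# A criterion for the Liouville property (after Kaimanovich and Vershik)
-/

set_option autoImplicit false

namespace Pool.Agent.X196.Liou

/-- `μ` is a probability measure on `G` (given by its point masses) -/
def IsProb {G : Type} (μ : G → ℝ) : Prop := (∀ g, 0 ≤ μ g) ∧ HasSum μ 1

/-- the support of `μ` generates `G` as a semigroup -/
def NonDegenerate {G : Type} [Group G] (μ : G → ℝ) : Prop :=
  Subsemigroup.closure {g : G | μ g ≠ 0} = ⊤

/-- the transition probability `p_μ(y, z)`, the sum of `μ g` over the `g` with `g y = z` -/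
noncomputable def transP {G Y : Type} [Group G] [MulAction G Y] (μ : G → ℝ) (y z : Y) : ℝ :=
  ∑' g : {g : G // g • y = z}, μ g

/-- `f` is `μ`-harmonic -/
def IsHarmonic {G Y : Type} [Group G] [MulAction G Y] (μ : G → ℝ) (f : Y → ℝ) : Prop :=
  ∀ y, HasSum (fun z => f z * transP μ y z) (f y)

/-- all bounded `μ`-harmonic functions are constant -/
def IsLiouvilleFor {G : Type} (Y : Type) [Group G] [MulAction G Y] (μ : G → ℝ) : Prop :=
  ∀ f : Y → ℝ, (∃ C : ℝ, ∀ y, |f y| ≤ C) → IsHarmonic μ f → ∃ c : ℝ, ∀ y, f y = c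

section General

variable {G : Type} [Group G]

/-- harmonicity in terms of the group -/
lemma harmonic_sum {Y : Type} [MulAction G Y] {μ : G → ℝ} (hμ : IsProb μ) {f : Y → ℝ} {C : ℝ}
    (hC : ∀ y, |f y| ≤ C) (hf : IsHarmonic μ f) (y : Y) : HasSum (fun g => μ g * f (g • y)) (f y) := by
  have hs : Summable (fun g => μ g * f (g • y)) := by
    refine Summable.of_norm_bounded (hμ.2.summable.mul_right C) fun g => ?_
    rw [Real.norm_eq_abs, abs_mul, abs_of_nonneg (hμ.1 g)]
    exact mul_le_mul_of_nonneg_left (hC _) (hμ.1 g)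
  obtain ⟨s, hs⟩ := hs
  let e : (Σ z : Y, {g : G // g • y = z}) ≃ G := Equiv.sigmaFiberEquiv fun g : G => g • y
  have h1 : HasSum ((fun g => μ g * f (g • y)) ∘ e) s := (e.hasSum_iff).2 hs
  have h2 : ∀ z : Y, HasSum (fun g : {g : G // g • y = z} => ((fun g => μ g * f (g • y)) ∘ e) ⟨z, g⟩)
      (f z * transP μ y z) := by
    intro z
    have h3 : (fun g : {g : G // g • y = z} => ((fun g => μ g * f (g • y)) ∘ e) ⟨z, g⟩) =
        fun g : {g : G // g • y = z} => f z * μ g := by
      funext g
      show μ g.1 * f (g.1 • y) = _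
      rw [g.2, mul_comm]
    rw [h3]
    exact ((hμ.2.summable.subtype _).hasSum).mul_left (f z)
  have h4 : HasSum (fun z => f z * transP μ y z) s := HasSum.sigma h1 h2
  have h5 := (hf y).unique h4
  rw [h5]
  exact hs

/-- average over a finite set -/
noncomputable def avg (S : Finset G) (F : G → ℝ) : ℝ := (∑ g ∈ S, F g) / S.card

/-- weights -/
noncomputable def cw (k : ℕ) : ℝ := (1 / 2) ^ (k + 1)

lemma cw_pos (k : ℕ) : 0 < cw k := by
  unfold cw
  positivity

lemma hasSum_cw : HasSum cw 1 := by
  have h := hasSum_geometric_two.mul_left (1 / 2 : ℝ)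
  norm_num at h
  have h2 : cw = fun k => 1 / 2 * (1 / 2 : ℝ) ^ k := by
    funext k
    unfold cw
    rw [pow_succ, mul_comm]
  rw [h2]
  convert h using 1

/-- the mixture -/
noncomputable def mix (S : ℕ → Finset G) (g : G) : ℝ := by
  classical
  exact ∑' k, cw k * (if g ∈ S k then 1 / ((S k).card : ℝ) else 0)

open Classical in
lemma mix_aux (S : ℕ → Finset G) (hS : ∀ k, (S k).Nonempty) (F : G → ℝ) {C : ℝ}
    (hC : ∀ g, |F g| ≤ C) : Summable (fun k => cw k * avg (S k) F) ∧
      HasSum (fun g => mix S g * F g) (∑' k, cw k * avg (S k) F) := by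
  have hcard : ∀ k, (0 : ℝ) < (S k).card := fun k => by
    exact_mod_cast Finset.card_pos.2 (hS k)
  have hC0 : 0 ≤ C := (abs_nonneg _).trans (hC 1)
  let T0 : ℕ × G → ℝ := fun p => cw p.1 * (if p.2 ∈ S p.1 then 1 / ((S p.1).card : ℝ) else 0)
  have hfin : ∀ (k : ℕ) (H : G → ℝ), HasSum (fun g => cw k *
      (if g ∈ S k then 1 / ((S k).card : ℝ) else 0) * H g) (cw k * avg (S k) H) := by
    intro k H
    have h1 : HasSum (fun g => cw k * (if g ∈ S k then 1 / ((S k).card : ℝ) else 0) * H g)
        (∑ g ∈ S k, cw k * (if g ∈ S k then 1 / ((S k).card : ℝ) else 0) * H g) :=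
      hasSum_sum_of_ne_finset_zero (fun g hg => by simp [hg])
    convert h1 using 1
    unfold avg
    rw [Finset.sum_div, Finset.mul_sum]
    refine Finset.sum_congr rfl fun g hg => ?_
    rw [if_pos hg]
    ring
  have hT0 : Summable T0 := by
    rw [summable_prod_of_nonneg]
    · refine ⟨fun k => ?_, ?_⟩
      · have := (hfin k fun _ => 1).summable
        simpa [T0] using this
      · have h1 : (fun k => ∑' g, T0 (k, g)) = cw := by
          funext k
          have h2 := (hfin k fun _ => 1).tsum_eq
          have h3 : avg (S k) (fun _ => (1 : ℝ)) = 1 := by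
            unfold avg
            rw [Finset.sum_const, nsmul_eq_mul, mul_one, div_self (hcard k).ne']
          rw [h3] at h2
          simpa [T0] using h2
        rw [h1]
        exact hasSum_cw.summable
    · intro p
      show 0 ≤ cw p.1 * (if p.2 ∈ S p.1 then 1 / ((S p.1).card : ℝ) else 0)
      have := cw_pos p.1
      split_ifs
      · positivity
      · simp
  have hT0n : ∀ p, 0 ≤ T0 p := by
    intro p
    show 0 ≤ cw p.1 * (if p.2 ∈ S p.1 then 1 / ((S p.1).card : ℝ) else 0)
    have := cw_pos p.1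
    split_ifs
    · positivity
    · simp
  have hT : Summable (fun p : ℕ × G => T0 p * F p.2) := by
    refine Summable.of_norm_bounded (hT0.mul_right C) fun p => ?_
    rw [Real.norm_eq_abs, abs_mul, abs_of_nonneg (hT0n p)]
    exact mul_le_mul_of_nonneg_left (hC _) (hT0n p)
  obtain ⟨s, hs⟩ := hT
  have h1 : HasSum (fun k => cw k * avg (S k) F) s := hs.prod_fiberwise fun k => hfin k F
  have h2 : HasSum (fun g => mix S g * F g) s := by
    have h3 : HasSum ((fun p : ℕ × G => T0 p * F p.2) ∘ (Equiv.prodComm G ℕ)) s :=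
      (Equiv.hasSum_iff _).2 hs
    refine h3.prod_fiberwise fun g => ?_
    have h4 : Summable (fun k => T0 (k, g)) := hT0.comp_injective (fun a b h => by
      simpa using h)
    exact h4.hasSum.mul_right (F g)
  rw [h1.tsum_eq]
  exact ⟨h1.summable, h2⟩

lemma mix_isProb (S : ℕ → Finset G) (hS : ∀ k, (S k).Nonempty) : IsProb (mix S) := by
  classical
  constructor
  · intro g
    unfold mix
    refine tsum_nonneg fun k => ?_
    have := cw_pos k
    split_ifs
    · positivity
    · simp
  · obtain ⟨-, h⟩ := mix_aux S hS (fun _ => 1) (C := 1) (by simp)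
    have h1 : (fun k => cw k * avg (S k) fun _ => (1 : ℝ)) = cw := by
      funext k
      unfold avg
      have hcard : (0 : ℝ) < (S k).card := by
        exact_mod_cast Finset.card_pos.2 (hS k)
      rw [Finset.sum_const, nsmul_eq_mul, mul_one, div_self hcard.ne', mul_one]
    rw [h1, hasSum_cw.tsum_eq] at h
    simpa using h

lemma mix_pos (S : ℕ → Finset G) (k : ℕ) (g : G) (hg : g ∈ S k) : 0 < mix S g := by
  classical
  have hterm : ∀ j, 0 ≤ cw j * (if g ∈ S j then 1 / ((S j).card : ℝ) else 0) := by
    intro j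
    have := cw_pos j
    split_ifs
    · positivity
    · simp
  have hsum : Summable fun j => cw j * (if g ∈ S j then 1 / ((S j).card : ℝ) else 0) := by
    refine Summable.of_nonneg_of_le hterm (fun j => ?_) hasSum_cw.summable
    have := (cw_pos j).le
    split_ifs with h
    · have h1 : (1 : ℝ) ≤ (S j).card := by
        exact_mod_cast Finset.card_pos.2 ⟨g, h⟩
      have h2 : 1 / ((S j).card : ℝ) ≤ 1 := by
        rw [div_le_one (by linarith)]
        exact h1
      calc cw j * (1 / ((S j).card : ℝ)) ≤ cw j * 1 := mul_le_mul_of_nonneg_left h2 this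
        _ = cw j := mul_one _
    · simpa using this
  unfold mix
  refine hsum.tsum_pos hterm k ?_
  rw [if_pos hg]
  have h1 : (0 : ℝ) < (S k).card := by
    exact_mod_cast Finset.card_pos.2 ⟨g, hg⟩
  have := cw_pos k
  positivity

variable {Y : Type} [MulAction G Y]

/-- the points visited in fewer than `n` steps -/
noncomputable def reach (F : Finset G) : ℕ → Finset Y → Finset Y := by
  classical
  exact fun n => Nat.rec (fun _ => ∅) (fun _ r K => K ∪ (F ×ˢ K).biUnion fun p => r {p.1 • p.2}) n

open Classical in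
lemma reach_succ (F : Finset G) (n : ℕ) (K : Finset Y) :
    reach F (n + 1) K = K ∪ (F ×ˢ K).biUnion fun p => reach F n {p.1 • p.2} := rfl

lemma reach_step {F : Finset G} {n : ℕ} {g : G} (hg : g ∈ F) {y : Y} {K : Finset Y}
    (h : reach F (n + 1) {y} ⊆ K) : reach F n {g • y} ⊆ K := by
  classical
  refine subset_trans ?_ h
  rw [reach_succ]
  refine subset_trans ?_ Finset.subset_union_right
  intro x hx
  exact Finset.mem_biUnion.2 ⟨(g, y), Finset.mem_product.2 ⟨hg, Finset.mem_singleton_self y⟩, hx⟩

lemma reach_mem {F : Finset G} {n : ℕ} {y : Y} {K : Finset Y}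
    (h : reach F (n + 1) {y} ⊆ K) : y ∈ K := by
  classical
  apply h
  rw [reach_succ]
  exact Finset.mem_union_left _ (Finset.mem_singleton_self y)

/-- the central estimate -/
lemma estimate (S : ℕ → Finset G) (hS : ∀ k, (S k).Nonempty) (r : Y → Y → Prop)
    (hr : ∀ (g : G) y z, r y z → r (g • y) (g • z)) (k : ℕ) (F : Finset G)
    (hF : ∀ j < k, S j ⊆ F) (K : Finset Y)
    (hK : ∀ j, k ≤ j → ∀ y ∈ K, ∀ z ∈ K, r y z → ∀ f : Y → ℝ,
      ∑ g ∈ S j, f (g • y) = ∑ g ∈ S j, f (g • z))
    (f : Y → ℝ) (C : ℝ) (hC : ∀ y, |f y| ≤ C)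
    (hf : ∀ y, HasSum (fun g => mix S g * f (g • y)) (f y)) :
    ∀ (n : ℕ) (y z : Y), r y z → reach F n {y} ⊆ K → reach F n {z} ⊆ K →
      |f y - f z| ≤ (∑ j ∈ Finset.range k, cw j) ^ n * (2 * C) := by
  have hC0 : ∀ y : Y, 0 ≤ C := fun y => (abs_nonneg _).trans (hC y)
  have hcard : ∀ k, (0 : ℝ) < (S k).card := fun k => by
    exact_mod_cast Finset.card_pos.2 (hS k)
  intro n
  induction n with
  | zero =>
    intro y z _ _ _
    rw [pow_zero, one_mul, two_mul]
    exact (abs_sub _ _).trans (add_le_add (hC y) (hC z))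
  | succ n ih =>
    intro y z hyz hy hz
    have hy1 := mix_aux S hS (fun g => f (g • y)) (C := C) (fun g => hC _)
    have hz1 := mix_aux S hS (fun g => f (g • z)) (C := C) (fun g => hC _)
    have hfy := (hf y).unique hy1.2
    have hfz := (hf z).unique hz1.2
    have hdiff : f y - f z = ∑' j, cw j * (avg (S j) (fun g => f (g • y)) -
        avg (S j) (fun g => f (g • z))) := by
      rw [hfy, hfz, ← hy1.1.tsum_sub hz1.1]
      congr 1
      funext j
      ring
    have hzero : ∀ j ∉ Finset.range k, cw j * (avg (S j) (fun g => f (g • y)) -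
        avg (S j) (fun g => f (g • z))) = 0 := by
      intro j hj
      rw [Finset.mem_range, not_lt] at hj
      have h1 := hK j hj y (reach_mem hy) z (reach_mem hz) hyz f
      unfold avg
      rw [h1]
      ring
    rw [hdiff, tsum_eq_sum hzero]
    refine (Finset.abs_sum_le_sum_abs _ _).trans ?_
    rw [pow_succ', mul_assoc, Finset.sum_mul]
    refine Finset.sum_le_sum fun j hj => ?_
    rw [abs_mul, abs_of_pos (cw_pos j)]
    refine mul_le_mul_of_nonneg_left ?_ (cw_pos j).le
    unfold avg
    rw [← sub_div, ← Finset.sum_sub_distrib, abs_div, abs_of_pos (hcard j), div_le_iff₀ (hcard j)]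
    refine (Finset.abs_sum_le_sum_abs _ _).trans ?_
    have h2 : ∑ g ∈ S j, |f (g • y) - f (g • z)| ≤
        ∑ _g ∈ S j, (∑ j ∈ Finset.range k, cw j) ^ n * (2 * C) := by
      refine Finset.sum_le_sum fun g hg => ?_
      have hgF : g ∈ F := hF j (Finset.mem_range.1 hj) hg
      exact ih _ _ (hr g y z hyz) (reach_step hgF hy) (reach_step hgF hz)
    refine h2.trans ?_
    rw [Finset.sum_const, nsmul_eq_mul, mul_comm]

lemma sum_cw_lt (k : ℕ) : ∑ j ∈ Finset.range k, cw j < 1 := by
  have h1 := hasSum_cw.tsum_eq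
  have h2 := hasSum_cw.summable.sum_add_tsum_nat_add k
  rw [h1] at h2
  have h3 : 0 < ∑' j, cw (j + k) := by
    refine Summable.tsum_pos ((summable_nat_add_iff k).2 hasSum_cw.summable)
      (fun j => (cw_pos _).le) 0 (cw_pos _)
  linarith

lemma sum_cw_nonneg (k : ℕ) : 0 ≤ ∑ j ∈ Finset.range k, cw j :=
  Finset.sum_nonneg fun j _ => (cw_pos j).le

/-- the times -/
noncomputable def tm (k : ℕ) : ℕ :=
  (exists_pow_lt_of_lt_one (show (0 : ℝ) < 1 / (k + 1) by positivity) (sum_cw_lt k)).choose

lemma tm_spec (k : ℕ) : (∑ j ∈ Finset.range k, cw j) ^ (tm k) < 1 / (k + 1) :=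
  (exists_pow_lt_of_lt_one (show (0 : ℝ) < 1 / (k + 1) by positivity) (sum_cw_lt k)).choose_spec

/-- **Criterion.** Suppose that for every finite set `K` of points and every `h` there is a
finite set `S` of group elements containing `h` whose uniform measure transports any two
`r`-related points of `K` to the same distribution. Then there is a probability measure with full
support for which every bounded harmonic function takes the same values at related points. -/
theorem criterion [Countable G] [Countable Y] (r : Y → Y → Prop)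
    (hr : ∀ (g : G) y z, r y z → r (g • y) (g • z))
    (H : ∀ (K : Finset Y) (h : G), ∃ S : Finset G, h ∈ S ∧ ∀ y ∈ K, ∀ z ∈ K, r y z →
      ∀ f : Y → ℝ, ∑ g ∈ S, f (g • y) = ∑ g ∈ S, f (g • z)) :
    ∃ μ : G → ℝ, IsProb μ ∧ (∀ g, 0 < μ g) ∧
      ∀ (f : Y → ℝ) (C : ℝ), (∀ y, |f y| ≤ C) →
        (∀ y, HasSum (fun g => μ g * f (g • y)) (f y)) → ∀ y z, r y z → f y = f z := by
  classical
  choose N hN1 hN2 using H
  obtain ⟨enG, henG⟩ := exists_surjective_nat G
  rcases isEmpty_or_nonempty Y with hY | hY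
  · refine ⟨mix fun k => {enG k}, mix_isProb _ (fun k => Finset.singleton_nonempty _), fun g => ?_,
      fun f C _ _ y => hY.elim y⟩
    obtain ⟨k, rfl⟩ := henG g
    exact mix_pos _ k _ (Finset.mem_singleton_self _)
  obtain ⟨enY, henY⟩ := exists_surjective_nat Y
  -- the state after `k` steps: the union of the supports and the set of controlled points
  let stepK : ℕ → Finset G × Finset Y → Finset Y := fun k s =>
    s.2 ∪ (Finset.range k).biUnion fun i => reach s.1 (tm k) {enY i}
  let st : ℕ → Finset G × Finset Y := fun k => Nat.rec (∅, ∅)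
    (fun k s => (s.1 ∪ N (stepK k s) (enG k), stepK k s)) k
  let S : ℕ → Finset G := fun k => N (stepK k (st k)) (enG k)
  have hst : ∀ k, st (k + 1) = ((st k).1 ∪ S k, stepK k (st k)) := fun k => rfl
  have hmono1 : ∀ k, (st k).1 ⊆ (st (k + 1)).1 := fun k => by
    rw [hst]
    exact Finset.subset_union_left
  have hmono2 : ∀ k, (st k).2 ⊆ (st (k + 1)).2 := fun k => by
    rw [hst]
    exact Finset.subset_union_left
  have hmono1' : Monotone fun k => (st k).1 := monotone_nat_of_le_succ hmono1
  have hmono2' : Monotone fun k => (st k).2 := monotone_nat_of_le_succ hmono2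
  have hS : ∀ k, (S k).Nonempty := fun k => ⟨enG k, hN1 _ _⟩
  refine ⟨mix S, mix_isProb S hS, fun g => ?_, ?_⟩
  · obtain ⟨k, rfl⟩ := henG g
    exact mix_pos S k _ (hN1 _ _)
  · intro f C hC hf y z hyz
    obtain ⟨a, rfl⟩ := henY y
    obtain ⟨b, rfl⟩ := henY z
    have hC0 : 0 ≤ C := (abs_nonneg _).trans (hC (enY 0))
    have hbound : ∀ k, max a b < k → |f (enY a) - f (enY b)| ≤ 1 / ((k : ℝ) + 1) * (2 * C) := by
      intro k hk
      have hF : ∀ j < k, S j ⊆ (st k).1 := by
        intro j hj
        have h1 : S j ⊆ (st (j + 1)).1 := by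
          rw [hst]
          exact Finset.subset_union_right
        exact h1.trans (hmono1' hj)
      have hK : ∀ j, k ≤ j → ∀ y ∈ stepK k (st k), ∀ z ∈ stepK k (st k), r y z → ∀ f : Y → ℝ,
          ∑ g ∈ S j, f (g • y) = ∑ g ∈ S j, f (g • z) := by
        intro j hj y hy z hz hyz f
        have h1 : stepK k (st k) ⊆ stepK j (st j) := by
          have h2 : stepK k (st k) = (st (k + 1)).2 := rfl
          have h3 : stepK j (st j) = (st (j + 1)).2 := rfl
          rw [h2, h3]
          exact hmono2' (show k + 1 ≤ j + 1 by omega)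
        exact hN2 _ _ y (h1 hy) z (h1 hz) hyz f
      have hreach : ∀ i < k, reach (st k).1 (tm k) {enY i} ⊆ stepK k (st k) := by
        intro i hi
        refine subset_trans ?_ Finset.subset_union_right
        intro x hx
        exact Finset.mem_biUnion.2 ⟨i, Finset.mem_range.2 hi, hx⟩
      have h1 := estimate S hS r hr k (st k).1 hF (stepK k (st k)) hK f C hC hf (tm k)
        (enY a) (enY b) hyz (hreach a (lt_of_le_of_lt (le_max_left _ _) hk))
        (hreach b (lt_of_le_of_lt (le_max_right _ _) hk))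
      refine h1.trans ?_
      exact mul_le_mul_of_nonneg_right (tm_spec k).le (by linarith)
    have hlim : Filter.Tendsto (fun k : ℕ => 1 / ((k : ℝ) + 1) * (2 * C)) Filter.atTop
        (nhds (0 * (2 * C))) :=
      tendsto_one_div_add_atTop_nhds_zero_nat.mul_const _
    rw [zero_mul] at hlim
    have h2 : |f (enY a) - f (enY b)| ≤ 0 := by
      refine ge_of_tendsto hlim ?_
      filter_upwards [Filter.eventually_gt_atTop (max a b)] with k hk
      exact hbound k hk
    have h3 := abs_nonpos_iff.1 h2
    linarith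

end General

end Pool.Agent.X196.Liou
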